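import Pool.Agent.Y582.NC.Main

/-!
# Martin's axiom and the chain conditions of the set `F` of a nowhere dense configuration

* For every infinite cardinal `κ`, Martin's axiom for `κ` dense sets implies that in every nowhere
  dense configuration `(T, A, F, ψ)` the set `F` meets all members of some almost disjoint family of
  cardinality `κ`, even if `T` is an arbitrary bounded linear operator on `C(ℕ*)`.
* Martin's axiom for `κ` dense sets can be forced (this part is from `Pool.Agent.W684.FM`, where the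
  forcing language is explained).

`NStar` is `ℕ* = βℕ ∖ ℕ` (non-principal ultrafilters with the topology of `βℕ`), `star f` is the
function `f*`, `remainder A` is `A*`, `IsConfiguration T A F ψ` lists the conditions on
`(T, A, F, ψ)` in the definition of a nowhere dense configuration other than the one that `T` is an
automorphism, and `CCCOverFin F` says that `F` is c.c.c. over Fin.
-/

set_option autoImplicit false

namespace Pool.Agent.Results.MP_f7fc44_an.EveryCardinal

open Cardinal Pool.Agent.W684 Pool.Agent.Helper669.Forcing Pool.Agent.W684.FM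
open Pool.Agent.TH327.NStarCCC

theorem result :
    -- Martin's axiom for `#X` dense sets can be forced, for every infinite set `X`
    (∀ (X : Type) [Infinite X], (∃ (P : Type) (_ : Preorder P), Nonempty P ∧ ∀ p : P,
      p ∈ CardinalsPreserved.{0, 0} P ∧ p ∈ OmegaOnePreserved P ∧ p ∈ MartinHolds P X) ∧
      (MartinFor X ↔ MartinAxiomCard #X)) ∧
    -- Martin's axiom for `κ` dense sets gives an almost disjoint family of `κ` sets meeting `F`
    (∀ κ : Cardinal.{0}, ℵ₀ ≤ κ → MartinAxiomCard κ →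
      ∀ (T : C(NStar, ℝ) →L[ℝ] C(NStar, ℝ)) (A : Set ℕ) (F : Set NStar) (ψ : F → NStar),
        IsConfiguration T A F ψ →
          ∃ 𝒜 : Set (Set ℕ), #𝒜 = κ ∧
            (∀ B ∈ 𝒜, B.Infinite ∧ (remainder B ∩ F).Nonempty) ∧
            ∀ B ∈ 𝒜, ∀ B' ∈ 𝒜, B ≠ B' → (B ∩ B').Finite) ∧
    -- Martin's axiom gives such families of every cardinality below the continuum
    ((∀ κ < 𝔠, MartinAxiomCard κ) →
      ∀ (T : C(NStar, ℝ) →L[ℝ] C(NStar, ℝ)) (A : Set ℕ) (F : Set NStar) (ψ : F → NStar),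
        IsConfiguration T A F ψ → ∀ κ : Cardinal.{0}, ℵ₀ ≤ κ → κ < 𝔠 →
          ∃ 𝒜 : Set (Set ℕ), #𝒜 = κ ∧
            (∀ B ∈ 𝒜, B.Infinite ∧ (remainder B ∩ F).Nonempty) ∧
            ∀ B ∈ 𝒜, ∀ B' ∈ 𝒜, B ≠ B' → (B ∩ B').Finite) ∧
    (MartinAxiomAleph1 →
      -- Q1: automorphisms
      (∀ (T : C(NStar, ℝ) →L[ℝ] C(NStar, ℝ)) (A : Set ℕ) (F : Set NStar) (ψ : F → NStar),
        Function.Bijective T → IsConfiguration T A F ψ → ¬ CCCOverFin F) ∧
      -- Q2: isomorphic embeddings
      (∀ (T : C(NStar, ℝ) →L[ℝ] C(NStar, ℝ)) (A : Set ℕ) (F : Set NStar) (ψ : F → NStar),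
        (∃ c : ℝ, 0 < c ∧ ∀ g : C(NStar, ℝ), c * ‖g‖ ≤ ‖T g‖) → IsConfiguration T A F ψ →
          ¬ CCCOverFin F)) :=
  ⟨fun X _ => ⟨exists_forcing X, martinFor_iff⟩,
    fun _ hκ hMA _ _ _ _ h => Pool.Agent.Y582.NC.main hκ hMA h,
    fun hMA _ _ _ _ h κ hκ hc => Pool.Agent.Y582.NC.main hκ (hMA κ hc) h,
    fun hMA => ⟨fun _ _ _ _ _ h => main hMA h, fun _ _ _ _ _ h => main hMA h⟩⟩

end Pool.Agent.Results.MP_f7fc44_an.EveryCardinal
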